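import Pool.Agent.H13.LN.Targets

/-!
# SYS: the filtered group of knots
-/

set_option autoImplicit false

open Finset

namespace Pool.Agent.H29.LNT

open Pool.Agent.H59.LIN Pool.Agent.H13.LN

theorem run_some {n : ℕ} (w : Wd n) (p : Fin (n + 1)) :
    run (w.map fun x => (x.1, some x.2) : SWd n) p = run w p := by
  induction w generalizing p with
  | nil => rfl
  | cons x w ih =>
    show run (w.map fun x => (x.1, some x.2) : SWd n) (tr x.1 p) = run w (tr x.1 p)
    exact ih _

theorem ext_some {R : Type} [Sub R] {n : ℕ} (v : Wd n → R) (u w : Wd n) :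
    ext v u (w.map fun x => (x.1, some x.2) : SWd n) = v (u ++ w) := by
  induction w generalizing u with
  | nil =>
    show v u = v (u ++ [])
    rw [List.append_nil]
  | cons x w ih =>
    show ext v (u ++ [(x.1, x.2)]) (w.map fun x => (x.1, some x.2) : SWd n) = _
    rw [ih]
    simp

theorem anti (d : ℕ) : Fil (d + 1) ≤ Fil d := by
  refine AddSubgroup.closure_mono ?_
  rintro x (hx | ⟨n, w, hw, hd, hx⟩)
  · exact Or.inl hx
  · exact Or.inr ⟨n, w, hw, (Nat.le_succ d).trans hd, hx⟩

theorem mem_fil {d n : ℕ} {w : SWd n} (hw : Knot w) (hd : d ≤ dbl w) :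
    ext (kn n) [] w ∈ Fil d :=
  AddSubgroup.subset_closure (Or.inr ⟨n, w, hw, hd, rfl⟩)

theorem zero (hRUN : T_RUN) : Fil 0 = ⊤ := by
  rw [eq_top_iff]
  rintro x -
  induction x using Finsupp.induction_linear with
  | zero => exact zero_mem _
  | add x y hx hy => exact add_mem hx hy
  | single k m =>
    obtain ⟨n, w, h⟩ := k
    have h1 : (Finsupp.single ⟨n, w, h⟩ m : KW →₀ ℤ) = m • Finsupp.single ⟨n, w, h⟩ 1 := by
      rw [Finsupp.smul_single, smul_eq_mul, mul_one]
    rw [h1]
    refine zsmul_mem ?_ m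
    have hr : run (w.map fun x => (x.1, some x.2) : SWd n) = run w := by
      funext p
      exact run_some w p
    have hk : Knot (w.map fun x => (x.1, some x.2) : SWd n) :=
      hRUN.2.2.2.2.1 n Bool (Option Bool) w (w.map fun x => (x.1, some x.2) : SWd n) hr.symm h
    have h2 := mem_fil hk (Nat.zero_le _)
    rw [ext_some] at h2
    rw [List.nil_append] at h2
    unfold kn at h2
    rwa [dif_pos h] at h2

theorem key (hSYM : T_SYM) (hREA : T_REA) (hWSC : T_WSC) (hVFC : T_VFC) (d : ℕ) :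
    ∃ φ : Chd d →+ (KW →₀ ℤ) ⧸ Fil (d + 1),
      (∀ (n : ℕ) (w : SWd n) (l : GW d), Knot w → dbl w = d → gauss w = l.1 →
        φ (QuotientAddGroup.mk (Finsupp.single l 1)) = QuotientAddGroup.mk (ext (kn n) [] w)) ∧
      ∀ l : GW d, ∃ (n : ℕ) (w : SWd n), Knot w ∧ dbl w = d ∧
        φ (QuotientAddGroup.mk (Finsupp.single l 1)) = QuotientAddGroup.mk (ext (kn n) [] w) := by
  obtain ⟨h1, h2, h3⟩ := (hVFC d ((KW →₀ ℤ) ⧸ Fil (d + 1))).2 (AddMonoidHom.id _)
  obtain ⟨S, hS, h4⟩ := hSYM _ _ d h1 h2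
  obtain ⟨φ, hφ⟩ := (hWSC d _).1 S hS
  refine ⟨φ, ?_, ?_⟩
  · intro n w l hw hd hg
    rw [hφ l, ← hg, ← h4 n w hw hd]
    exact h3 n w hw
  · intro l
    obtain ⟨n, w, f, hw, hd, hf, hg⟩ := hREA d l.1 l.2
    refine ⟨n, w, hw, hd, ?_⟩
    rw [hφ l, ← hS.relab l.1 f l.2 hf, ← hg, ← h4 n w hw hd]
    exact h3 n w hw

theorem sys (hSYM : T_SYM) (hREA : T_REA) (hGAU : T_GAU) (hFGC : T_FGC) (hWSC : T_WSC)
    (hVFC : T_VFC) (_hEXA : T_EXA) (hRUN : T_RUN) : T_SYS := by
  choose φ hφ1 hφ2 using key hSYM hREA hWSC hVFC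
  have hmk : ∀ (d : ℕ) (x : KW →₀ ℤ), x ∈ Fil (d + 1) →
      (QuotientAddGroup.mk x : (KW →₀ ℤ) ⧸ Fil (d + 1)) = 0 := fun d x hx =>
    (QuotientAddGroup.eq_zero_iff x).2 hx
  refine ⟨⟨anti, zero hRUN, φ, ?_, hFGC⟩, ?_⟩
  · intro d x
    constructor
    · intro hx
      refine AddSubgroup.closure_induction (p := fun x _ => ∃ a, φ d a = QuotientAddGroup.mk x)
        ?_ ?_ ?_ ?_ hx
      · rintro x (⟨a, b, hab, rfl⟩ | ⟨n, w, hw, hd, rfl⟩)
        · refine ⟨0, ?_⟩
          rw [map_zero]
          exact (hmk d _ (AddSubgroup.subset_closure (Or.inl ⟨a, b, hab, rfl⟩))).symm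
        · rcases Nat.lt_or_ge d (dbl w) with h | h
          · refine ⟨0, ?_⟩
            rw [map_zero]
            exact (hmk d _ (mem_fil hw h)).symm
          · have hdd : dbl w = d := le_antisymm h hd
            have hG : Gw d (gauss w) := by
              have := (hGAU n w hw).1
              rwa [hdd] at this
            exact ⟨_, hφ1 d n w ⟨gauss w, hG⟩ hw hdd rfl⟩
      · exact ⟨0, by rw [map_zero]; rfl⟩
      · rintro x y _ _ ⟨a, ha⟩ ⟨b, hb⟩
        exact ⟨a + b, by rw [map_add, ha, hb]; rfl⟩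
      · rintro x _ ⟨a, ha⟩
        exact ⟨-a, by rw [map_neg, ha]; rfl⟩
    · rintro ⟨a, ha⟩
      have hy : ∃ y ∈ Fil d, φ d a = QuotientAddGroup.mk y := by
        induction a using QuotientAddGroup.induction_on with
        | H f =>
          clear ha
          induction f using Finsupp.induction_linear with
          | zero => exact ⟨0, zero_mem _, by
              show φ d 0 = 0
              rw [map_zero]⟩
          | add f g hf hg =>
            obtain ⟨y, hy, h1⟩ := hf
            obtain ⟨z, hz, h2⟩ := hg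
            refine ⟨y + z, add_mem hy hz, ?_⟩
            show φ d (QuotientAddGroup.mk f + QuotientAddGroup.mk g) = _
            rw [map_add, h1, h2]
            rfl
          | single l m =>
            obtain ⟨n, w, hw, hd, h1⟩ := hφ2 d l
            refine ⟨m • ext (kn n) [] w, zsmul_mem (mem_fil hw hd.ge) m, ?_⟩
            have h2 : (Finsupp.single l m : GW d →₀ ℤ) = m • Finsupp.single l 1 := by
              rw [Finsupp.smul_single, smul_eq_mul, mul_one]
            rw [h2]
            show φ d (m • QuotientAddGroup.mk (Finsupp.single l 1)) = _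
            rw [map_zsmul, h1]
            rfl
      obtain ⟨y, hyd, hy⟩ := hy
      rw [ha] at hy
      have h1 : -x + y ∈ Fil (d + 1) := QuotientAddGroup.eq.1 hy
      have h2 : x = y - (-x + y) := by abel
      rw [h2]
      exact sub_mem hyd (anti d h1)
  · intro d n w l hw hd hg
    exact hφ1 d n w l hw hd hg

end Pool.Agent.H29.LNT
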